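import Mathlib

set_option autoImplicit false

namespace Pool.Agent.Q131.PF

/-- The plane. -/
abbrev Pt := ℝ × ℝ

/-- The closed segment spanned by an unordered pair of points. -/
def seg (e : Sym2 Pt) : Set Pt := convexHull ℝ {x | x ∈ e}

/-- Two segments cross if they meet at a point that is not an endpoint of either. -/
def Cross (e f : Sym2 Pt) : Prop := ∃ x, x ∈ seg e ∧ x ∈ seg f ∧ x ∉ e ∧ x ∉ f

/-- The segments on `S`: two different endpoints in `S` and no other point of `S` on it. -/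
def Allowed (S : Finset Pt) (e : Sym2 Pt) : Prop :=
  ¬ e.IsDiag ∧ (∀ x ∈ e, x ∈ S) ∧ ∀ x ∈ S, x ∈ seg e → x ∈ e

/-- A triangulation of `S`: a maximal set of pairwise non-crossing segments on `S`. -/
def IsTriangulation (S : Finset Pt) (T : Set (Sym2 Pt)) : Prop :=
  Maximal (fun T : Set (Sym2 Pt) =>
    (∀ e ∈ T, Allowed S e) ∧ ∀ e ∈ T, ∀ f ∈ T, e ≠ f → ¬ Cross e f) T

/-- `a b c` is a triangle of `T`: its sides are edges of `T` and it holds no other point of `S`. -/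
def IsTriangle (S : Finset Pt) (T : Set (Sym2 Pt)) (a b c : Pt) : Prop :=
  s(a, b) ∈ T ∧ s(b, c) ∈ T ∧ s(c, a) ∈ T ∧
    ∀ x ∈ S, x ∈ convexHull ℝ {a, b, c} → x = a ∨ x = b ∨ x = c

/-- A parallel flip from `T` to `T'`: a set `E` of edges of `T`, no two of which are edges of a
common triangle of `T`, is removed and a set `E'` is added so that a triangulation arises. -/
def ParallelFlip (S : Finset Pt) (T T' : Set (Sym2 Pt)) : Prop :=
  ∃ E E' : Set (Sym2 Pt), E ⊆ T ∧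
    (∀ a b c, IsTriangle S T a b c → ¬ (s(a, b) ∈ E ∧ s(b, c) ∈ E)) ∧
    T' = (T \ E) ∪ E' ∧ IsTriangulation S T'

/-- `γ 0, …, γ ℓ` is a path of parallel flips of length `ℓ` from `T` to `T'`. -/
def IsPath (S : Finset Pt) (T T' : Set (Sym2 Pt)) (ℓ : ℕ) (γ : ℕ → Set (Sym2 Pt)) : Prop :=
  γ 0 = T ∧ γ ℓ = T' ∧ ∀ i < ℓ, ParallelFlip S (γ i) (γ (i + 1))

/-- A path of least length. -/
def IsShortest (S : Finset Pt) (T T' : Set (Sym2 Pt)) (ℓ : ℕ) (γ : ℕ → Set (Sym2 Pt)) : Prop :=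
  IsPath S T T' ℓ γ ∧ ∀ ℓ' γ', IsPath S T T' ℓ' γ' → ℓ ≤ ℓ'

end Pool.Agent.Q131.PF
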