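import Mathlib
import Pool.Agent.Q131.PF.Defs

set_option autoImplicit false

namespace Pool.Agent.Q131.PF

/-- orientation -/
def ori (a b c : Pt) : ℝ := (b.1 - a.1) * (c.2 - a.2) - (b.2 - a.2) * (c.1 - a.1)

lemma seg_eq (a b : Pt) : seg s(a, b) = segment ℝ a b := by
  unfold seg
  have : {x | x ∈ s(a, b)} = ({a, b} : Set Pt) := by
    ext x; simp
  rw [this, convexHull_pair]

lemma mem_seg_iff (a b x : Pt) : x ∈ seg s(a, b) ↔ ∃ t : ℝ, 0 ≤ t ∧ t ≤ 1 ∧
    x = (a.1 + t * (b.1 - a.1), a.2 + t * (b.2 - a.2)) := by
  rw [seg_eq, segment_eq_image]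
  constructor
  · rintro ⟨t, ⟨h0, h1⟩, rfl⟩
    refine ⟨t, h0, h1, ?_⟩
    ext <;> simp <;> ring
  · rintro ⟨t, h0, h1, rfl⟩
    refine ⟨t, ⟨h0, h1⟩, ?_⟩
    ext <;> simp <;> ring

/-- orientation is affine along a segment -/
lemma ori_lin (a b c d : Pt) (t : ℝ) :
    ori a b (c.1 + t * (d.1 - c.1), c.2 + t * (d.2 - c.2)) =
      (1 - t) * ori a b c + t * ori a b d := by
  unfold ori; ring

lemma ori_self (a b : Pt) : ori a b a = 0 := by unfold ori; ring
lemma ori_self' (a b : Pt) : ori a b b = 0 := by unfold ori; ring

lemma ori_of_mem_seg (a b x : Pt) (h : x ∈ seg s(a, b)) : ori a b x = 0 := by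
  obtain ⟨t, -, -, rfl⟩ := (mem_seg_iff a b x).mp h
  rw [ori_lin, ori_self, ori_self']; ring

/-- strict separation by the line of the first segment prevents a crossing -/
lemma not_cross_of_sep {a b c d : Pt} (h : 0 < ori a b c * ori a b d) :
    ¬ Cross s(a, b) s(c, d) := by
  rintro ⟨x, h1, h2, -, -⟩
  have h3 := ori_of_mem_seg a b x h1
  obtain ⟨t, t0, t1, rfl⟩ := (mem_seg_iff c d x).mp h2
  rw [ori_lin] at h3
  rcases mul_pos_iff.mp h with ⟨p, q⟩ | ⟨p, q⟩
  · rcases eq_or_lt_of_le t0 with h4 | h4
    · subst h4; simp at h3; linarith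
    · have : 0 ≤ (1 - t) * ori a b c := mul_nonneg (by linarith) p.le
      have : 0 < t * ori a b d := mul_pos h4 q
      linarith
  · rcases eq_or_lt_of_le t0 with h4 | h4
    · subst h4; simp at h3; linarith
    · have : (1 - t) * ori a b c ≤ 0 := mul_nonpos_of_nonneg_of_nonpos (by linarith) p.le
      have : t * ori a b d < 0 := mul_neg_of_pos_of_neg h4 q
      linarith

lemma Cross.symm {e f : Sym2 Pt} (h : Cross e f) : Cross f e := by
  obtain ⟨x, h1, h2, h3, h4⟩ := h
  exact ⟨x, h2, h1, h4, h3⟩

/-- two segments with a common endpoint -/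
lemma not_cross_of_share {a b c : Pt} (h : ori a b c ≠ 0) : ¬ Cross s(a, b) s(a, c) := by
  rintro ⟨x, h1, h2, h3, -⟩
  have h5 := ori_of_mem_seg a b x h1
  obtain ⟨t, t0, t1, rfl⟩ := (mem_seg_iff a c x).mp h2
  rw [ori_lin, ori_self] at h5
  have h6 : t = 0 := by
    rcases mul_eq_zero.mp (by linarith : t * ori a b c = 0) with h | h'
    · exact h
    · exact absurd h' h
  subst h6
  apply h3
  simp

/-- the strict orientation test gives a crossing -/
lemma cross_of_ori {a b c d : Pt} (h1 : ori a b c * ori a b d < 0)
    (h2 : ori c d a * ori c d b < 0) : Cross s(a, b) s(c, d) := by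
  set A := ori c d a with hA
  set B := ori c d b with hB
  set C := ori a b c with hC
  set D := ori a b d with hD
  have hAB : A - B ≠ 0 := by
    intro h
    have : A = B := by linarith
    rw [this] at h2
    nlinarith [mul_self_nonneg B]
  have hCD : C - D ≠ 0 := by
    intro h
    have : C = D := by linarith
    rw [this] at h1
    nlinarith [mul_self_nonneg D]
  have key : A - B = -(C - D) := by
    rw [hA, hB, hC, hD]; unfold ori; ring
  have ht : 0 < A / (A - B) ∧ A / (A - B) < 1 := by
    rcases mul_neg_iff.mp h2 with ⟨p, q⟩ | ⟨p, q⟩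
    · constructor
      · apply div_pos p; linarith
      · rw [div_lt_one (by linarith)]; linarith
    · constructor
      · apply div_pos_of_neg_of_neg p; linarith
      · rw [div_lt_one_of_neg (by linarith)]; linarith
  have hs : 0 < C / (C - D) ∧ C / (C - D) < 1 := by
    rcases mul_neg_iff.mp h1 with ⟨p, q⟩ | ⟨p, q⟩
    · constructor
      · apply div_pos p; linarith
      · rw [div_lt_one (by linarith)]; linarith
    · constructor
      · apply div_pos_of_neg_of_neg p; linarith
      · rw [div_lt_one_of_neg (by linarith)]; linarith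
  set t := A / (A - B) with htd
  set s := C / (C - D) with hsd
  have hpt : (a.1 + t * (b.1 - a.1), a.2 + t * (b.2 - a.2)) =
      ((c.1 + s * (d.1 - c.1), c.2 + s * (d.2 - c.2)) : Pt) := by
    have e1 : t * (A - B) = A := div_mul_cancel₀ _ hAB
    have e2 : s * (A - B) = -C := by
      rw [key]
      have := div_mul_cancel₀ C hCD
      rw [← hsd] at this
      linarith
    ext
    · apply mul_right_cancel₀ hAB
      simp only
      have : (a.1 + t * (b.1 - a.1)) * (A - B) = a.1 * (A - B) + (t * (A - B)) * (b.1 - a.1) := by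
        ring
      rw [this, e1]
      have : (c.1 + s * (d.1 - c.1)) * (A - B) = c.1 * (A - B) + (s * (A - B)) * (d.1 - c.1) := by
        ring
      rw [this, e2, hA, hB, hC]
      unfold ori; ring
    · apply mul_right_cancel₀ hAB
      simp only
      have : (a.2 + t * (b.2 - a.2)) * (A - B) = a.2 * (A - B) + (t * (A - B)) * (b.2 - a.2) := by
        ring
      rw [this, e1]
      have : (c.2 + s * (d.2 - c.2)) * (A - B) = c.2 * (A - B) + (s * (A - B)) * (d.2 - c.2) := by
        ring
      rw [this, e2, hA, hB, hC]
      unfold ori; ring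
  refine ⟨(a.1 + t * (b.1 - a.1), a.2 + t * (b.2 - a.2)), ?_, ?_, ?_, ?_⟩
  · rw [mem_seg_iff]; exact ⟨t, ht.1.le, ht.2.le, rfl⟩
  · rw [mem_seg_iff]; exact ⟨s, hs.1.le, hs.2.le, hpt⟩
  · intro hx
    have h0 : ori c d (a.1 + t * (b.1 - a.1), a.2 + t * (b.2 - a.2)) = 0 := by
      rw [hpt, ori_lin, ori_self, ori_self']; ring
    rcases Sym2.mem_iff.mp hx with h | h
    · rw [h] at h0; rw [← hA] at h0; rw [h0] at h2; simp at h2
    · rw [h] at h0; rw [← hB] at h0; rw [h0] at h2; simp at h2
  · intro hx
    have h0 : ori a b (a.1 + t * (b.1 - a.1), a.2 + t * (b.2 - a.2)) = 0 := by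
      rw [ori_lin, ori_self, ori_self']; ring
    rcases Sym2.mem_iff.mp hx with h | h
    · rw [h] at h0; rw [← hC] at h0; rw [h0] at h1; simp at h1
    · rw [h] at h0; rw [← hD] at h0; rw [h0] at h1; simp at h1

/-- a point strictly on the other side of a side line is outside the triangle -/
lemma not_mem_tri {a b c x : Pt} (h : ori a b x * ori a b c < 0) :
    x ∉ convexHull ℝ {a, b, c} := by
  intro hx
  rcases mul_neg_iff.mp h with ⟨p, q⟩ | ⟨p, q⟩
  · have hs : convexHull ℝ {a, b, c} ⊆ {y : Pt | ori a b y ≤ 0} := by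
      apply convexHull_min
      · intro y hy
        simp only [Set.mem_insert_iff, Set.mem_singleton_iff] at hy
        rcases hy with rfl | rfl | rfl
        · exact (ori_self _ _).le
        · exact (ori_self' _ _).le
        · exact q.le
      · intro y hy z hz s t hs ht hst
        simp only [Set.mem_setOf_eq] at *
        have : ori a b (s • y + t • z) = s * ori a b y + t * ori a b z := by
          have : t = 1 - s := by linarith
          subst this
          unfold ori; simp; ring
        rw [this]
        nlinarith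
    have := hs hx
    simp only [Set.mem_setOf_eq] at this
    linarith
  · have hs : convexHull ℝ {a, b, c} ⊆ {y : Pt | 0 ≤ ori a b y} := by
      apply convexHull_min
      · intro y hy
        simp only [Set.mem_insert_iff, Set.mem_singleton_iff] at hy
        rcases hy with rfl | rfl | rfl
        · exact (ori_self _ _).ge
        · exact (ori_self' _ _).ge
        · exact q.le
      · intro y hy z hz s t hs ht hst
        simp only [Set.mem_setOf_eq] at *
        have : ori a b (s • y + t • z) = s * ori a b y + t * ori a b z := by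
          have : t = 1 - s := by linarith
          subst this
          unfold ori; simp; ring
        rw [this]
        positivity
    have := hs hx
    simp only [Set.mem_setOf_eq] at this
    linarith

/-- a point on the same side of all three side lines is inside -/
lemma mem_tri {a b c x : Pt} (h1 : 0 < ori a b x) (h2 : 0 < ori b c x) (h3 : 0 < ori c a x) :
    x ∈ convexHull ℝ {a, b, c} := by
  have hsum : ori a b x + ori b c x + ori c a x = ori a b c := by unfold ori; ring
  have hpos : 0 < ori a b c := by linarith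
  rw [convexHull_insert (by simp), convexHull_pair]
  rw [mem_convexJoin]
  refine ⟨a, rfl, ?_⟩
  -- the point on bc
  set D := ori a b c with hD
  set p := ori b c x / D with hp
  set q := ori c a x / D with hq
  set r := ori a b x / D with hr
  have hpp : 0 < p := div_pos h2 hpos
  have hqp : 0 < q := div_pos h3 hpos
  have hrp : 0 < r := div_pos h1 hpos
  have hs : p + q + r = 1 := by
    rw [hp, hq, hr, ← add_div, ← add_div, div_eq_one_iff_eq hpos.ne']
    linarith
  have hx : x = (p * a.1 + q * b.1 + r * c.1, p * a.2 + q * b.2 + r * c.2) := by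
    have e1 : p * D = ori b c x := div_mul_cancel₀ _ hpos.ne'
    have e2 : q * D = ori c a x := div_mul_cancel₀ _ hpos.ne'
    have e3 : r * D = ori a b x := div_mul_cancel₀ _ hpos.ne'
    ext
    · apply mul_right_cancel₀ hpos.ne'
      simp only
      have : (p * a.1 + q * b.1 + r * c.1) * D = (p * D) * a.1 + (q * D) * b.1 + (r * D) * c.1 := by
        ring
      rw [this, e1, e2, e3, hD]
      unfold ori; ring
    · apply mul_right_cancel₀ hpos.ne'
      simp only
      have : (p * a.2 + q * b.2 + r * c.2) * D = (p * D) * a.2 + (q * D) * b.2 + (r * D) * c.2 := by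
        ring
      rw [this, e1, e2, e3, hD]
      unfold ori; ring
  have hqr : 0 < q + r := by linarith
  refine ⟨((q / (q + r)) • b + (r / (q + r)) • c), ?_, ?_⟩
  · exact ⟨q / (q + r), r / (q + r), by positivity, by positivity, by field_simp, rfl⟩
  · refine ⟨p, q + r, hpp.le, hqr.le, by linarith, ?_⟩
    rw [hx]
    ext
    · simp only [Prod.fst_add, Prod.smul_fst, smul_eq_mul]
      field_simp
      ring
    · simp only [Prod.snd_add, Prod.smul_snd, smul_eq_mul]
      field_simp
      ring

end Pool.Agent.Q131.PF
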