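import Mathlib
import Pool.Agent.Q131.PF.Geo

set_option autoImplicit false

namespace Pool.Agent.Q131.PF

/-- first coordinates; 0-6 upper chain, 7-13 lower chain, 14 left apex, 15 right apex -/
def cx (n : ℕ) : ℤ :=
  if n < 7 then 10 * (n : ℤ) - 30 else if n < 14 then 10 * (n : ℤ) - 100 else
    if n = 14 then -60 else 60

/-- second coordinates -/
def cy (n : ℕ) : ℤ :=
  if n < 7 then 100 + ((n : ℤ) - 3) * ((n : ℤ) - 3) else
    if n < 14 then -100 - ((n : ℤ) - 10) * ((n : ℤ) - 10) else 0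

/-- integer orientation -/
def oz (i j k : ℕ) : ℤ := (cx j - cx i) * (cy k - cy i) - (cy j - cy i) * (cx k - cx i)

/-- crossing test -/
def xz (i j k l : ℕ) : Bool :=
  decide (oz i j k * oz i j l < 0) && decide (oz k l i * oz k l j < 0)

/-- the points -/
def pt (n : ℕ) : Pt := ((cx n : ℝ), (cy n : ℝ))

lemma ori_pt (i j k : ℕ) : ori (pt i) (pt j) (pt k) = (oz i j k : ℝ) := by
  unfold ori pt oz; push_cast; ring

set_option maxRecDepth 100000 in
lemma oz_ne : ∀ i : Fin 16, ∀ j : Fin 16, ∀ k : Fin 16, i ≠ j → i ≠ k → j ≠ k →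
    oz i j k ≠ 0 := by
  decide +kernel

set_option maxRecDepth 100000 in
lemma cc_ne : ∀ i : Fin 16, ∀ j : Fin 16, i ≠ j → ¬ (cx i = cx j ∧ cy i = cy j) := by
  decide +kernel

end Pool.Agent.Q131.PF
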