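import Mathlib
import Pool.Agent.Q131.PF.Comb

set_option autoImplicit false

namespace Pool.Agent.Q131.PF

/-- the explicit path of twelve triangulations; an edge i j with i < j is coded as 16 i + j -/
def LL (n : ℕ) : List ℕ :=
  match n with
  | 0 =>
    [1, 2, 3, 4, 5, 6, 7, 14, 18, 23, 35, 39, 52, 55, 69, 71, 86, 87, 103, 111, 120, 121, 122,
     123, 124, 125, 126, 127, 137, 143, 154, 159, 171, 175, 188, 191, 205, 207, 223]
  | 1 =>
    [1, 2, 3, 4, 5, 6, 14, 18, 23, 30, 35, 39, 52, 55, 69, 71, 86, 87, 95, 111, 120, 121, 122,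
     123, 124, 125, 126, 127, 137, 143, 154, 159, 171, 175, 188, 191, 205, 207, 223]
  | 2 =>
    [1, 2, 3, 4, 5, 6, 14, 18, 30, 35, 39, 46, 52, 55, 69, 71, 79, 86, 95, 111, 120, 121, 122,
     123, 124, 125, 126, 127, 137, 143, 154, 159, 171, 175, 188, 191, 205, 207, 223]
  | 3 =>
    [1, 2, 3, 4, 5, 6, 14, 18, 30, 35, 46, 52, 55, 62, 63, 69, 79, 86, 95, 111, 120, 121, 122,
     123, 124, 125, 126, 127, 137, 143, 154, 159, 171, 175, 188, 191, 205, 207, 223]
  | 4 =>
    [1, 2, 3, 4, 5, 6, 14, 18, 30, 35, 46, 52, 62, 63, 69, 79, 86, 95, 111, 120, 121, 122, 123,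
     124, 125, 126, 127, 137, 143, 154, 159, 171, 175, 188, 191, 205, 207, 223, 239]
  | 5 =>
    [1, 2, 3, 4, 5, 6, 14, 18, 30, 35, 46, 47, 52, 63, 69, 79, 86, 95, 111, 120, 121, 122, 123,
     124, 125, 126, 137, 142, 143, 154, 159, 171, 175, 188, 191, 205, 207, 223, 239]
  | 6 =>
    [1, 2, 3, 4, 5, 6, 14, 18, 30, 31, 35, 47, 52, 63, 69, 79, 86, 95, 111, 120, 121, 122, 123,
     124, 125, 126, 137, 142, 154, 158, 159, 171, 175, 188, 191, 205, 207, 223, 239]
  | 7 =>
    [1, 2, 3, 4, 5, 6, 14, 15, 18, 31, 35, 47, 52, 63, 69, 79, 86, 95, 111, 120, 121, 122, 123,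
     124, 125, 126, 137, 142, 154, 158, 171, 174, 175, 188, 191, 205, 207, 223, 239]
  | 8 =>
    [1, 2, 3, 4, 5, 6, 10, 14, 15, 18, 31, 35, 47, 52, 63, 69, 79, 86, 95, 111, 120, 121, 122,
     123, 124, 125, 126, 137, 142, 154, 158, 171, 174, 175, 188, 191, 205, 207, 223]
  | 9 =>
    [1, 2, 3, 4, 5, 6, 9, 10, 11, 14, 15, 18, 31, 35, 47, 52, 63, 69, 79, 86, 95, 111, 120,
     121, 122, 123, 124, 125, 126, 137, 142, 154, 158, 171, 188, 191, 205, 207, 223]
  | 10 =>
    [1, 2, 3, 4, 5, 6, 8, 9, 10, 11, 12, 14, 15, 18, 31, 35, 47, 52, 63, 69, 79, 86, 95, 111,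
     120, 121, 122, 123, 124, 125, 126, 137, 142, 154, 171, 188, 205, 207, 223]
  | _ =>
    [1, 2, 3, 4, 5, 6, 7, 8, 9, 10, 11, 12, 13, 14, 15, 18, 31, 35, 47, 52, 63, 69, 79, 86, 95,
     111, 120, 121, 122, 123, 124, 125, 126, 137, 154, 171, 188, 205, 223]

/-- well-formed -/
def chk1 (L : List ℕ) : Bool := L.all (fun n => decide (n / 16 < n % 16) && decide (n < 256))

/-- no crossings -/
def chk2 (L : List ℕ) : Bool :=
  L.all (fun n => L.all (fun m => !xz (n / 16) (n % 16) (m / 16) (m % 16)))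

/-- maximality -/
def chk3 (L : List ℕ) : Bool :=
  (List.range 16).all (fun i => (List.range 16).all (fun j =>
    !decide (i < j) || L.contains (16 * i + j) || L.any (fun m => xz i j (m / 16) (m % 16))))

/-- code of an unordered pair -/
def cd (i j : ℕ) : ℕ := if i < j then 16 * i + j else 16 * j + i

/-- x strictly inside the triangle a b c -/
def ins (a b c x : ℕ) : Bool :=
  (decide (0 < oz a b x) && decide (0 < oz b c x) && decide (0 < oz c a x)) ||
  (decide (oz a b x < 0) && decide (oz b c x < 0) && decide (oz c a x < 0))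

/-- two removed edges are not in a common triangle -/
def chk4 (L L' : List ℕ) : Bool :=
  (List.range 16).all (fun b => (List.range 16).all (fun a =>
    !(L.contains (cd a b) && !L'.contains (cd a b)) ||
    (List.range 16).all (fun c =>
      !(L.contains (cd b c) && !L'.contains (cd b c) && L.contains (cd a c) && decide (a ≠ c)) ||
      (List.range 16).any (fun x => ins a b c x))))

set_option maxRecDepth 100000 in
lemma chk1_all : ((List.range 12).all (fun n => chk1 (LL n))) = true := by decide +kernel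

set_option maxRecDepth 100000 in
lemma chk2_all : ((List.range 12).all (fun n => chk2 (LL n))) = true := by decide +kernel

set_option maxRecDepth 100000 in
lemma chk3_all : ((List.range 12).all (fun n => chk3 (LL n))) = true := by decide +kernel

set_option maxRecDepth 100000 in
lemma chk4_all : ((List.range 11).all (fun n => chk4 (LL n) (LL (n + 1)))) = true := by
  decide +kernel

end Pool.Agent.Q131.PF
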