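import Mathlib
import Pool.Agent.Q131.PF.Lists

set_option autoImplicit false

namespace Pool.Agent.Q131.PF

/-- the point set -/
noncomputable def S16 : Finset Pt := (Finset.range 16).image pt

/-- the set of segments coded by a list -/
def TR (L : List ℕ) : Set (Sym2 Pt) := {e | ∃ n ∈ L, e = s(pt (n / 16), pt (n % 16))}

lemma mem_S16 {x : Pt} : x ∈ S16 ↔ ∃ k < 16, x = pt k := by
  unfold S16
  simp only [Finset.mem_image, Finset.mem_range]
  constructor
  · rintro ⟨a, h, rfl⟩; exact ⟨a, h, rfl⟩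
  · rintro ⟨a, h, rfl⟩; exact ⟨a, h, rfl⟩

lemma pt_inj {i j : ℕ} (hi : i < 16) (hj : j < 16) (h : pt i = pt j) : i = j := by
  by_contra hne
  have := cc_ne ⟨i, hi⟩ ⟨j, hj⟩ (by intro hc; exact hne (Fin.mk.inj_iff.mp hc))
  apply this
  unfold pt at h
  rw [Prod.mk.injEq] at h
  exact ⟨Int.cast_injective h.1, Int.cast_injective h.2⟩

lemma ozne {i j k : ℕ} (hi : i < 16) (hj : j < 16) (hk : k < 16) (h1 : i ≠ j) (h2 : i ≠ k)
    (h3 : j ≠ k) : oz i j k ≠ 0 :=
  oz_ne ⟨i, hi⟩ ⟨j, hj⟩ ⟨k, hk⟩ (by intro hc; exact h1 (Fin.mk.inj_iff.mp hc))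
    (by intro hc; exact h2 (Fin.mk.inj_iff.mp hc)) (by intro hc; exact h3 (Fin.mk.inj_iff.mp hc))

lemma ori_ne {i j k : ℕ} (hi : i < 16) (hj : j < 16) (hk : k < 16) (h1 : i ≠ j) (h2 : i ≠ k)
    (h3 : j ≠ k) : ori (pt i) (pt j) (pt k) ≠ 0 := by
  rw [ori_pt]
  exact_mod_cast ozne hi hj hk h1 h2 h3

lemma xz_iff (i j k l : ℕ) : xz i j k l = true ↔
    (ori (pt i) (pt j) (pt k) * ori (pt i) (pt j) (pt l) < 0 ∧
      ori (pt k) (pt l) (pt i) * ori (pt k) (pt l) (pt j) < 0) := by
  unfold xz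
  rw [ori_pt, ori_pt, ori_pt, ori_pt]
  simp only [Bool.and_eq_true, decide_eq_true_eq]
  norm_cast

lemma cross_iff {i j k l : ℕ} (hi : i < 16) (hj : j < 16) (hk : k < 16) (hl : l < 16)
    (hij : i ≠ j) (hkl : k ≠ l) (hne : s(pt i, pt j) ≠ s(pt k, pt l)) :
    Cross s(pt i, pt j) s(pt k, pt l) ↔ xz i j k l = true := by
  rw [xz_iff]
  constructor
  · intro hc
    by_cases h1 : i = k
    · subst h1
      have hjl : j ≠ l := by rintro rfl; exact hne rfl
      exact absurd hc (not_cross_of_share (ori_ne hi hj hl hij hkl hjl))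
    by_cases h2 : i = l
    · subst h2
      have hjk : j ≠ k := by rintro rfl; exact hne Sym2.eq_swap
      rw [Sym2.eq_swap (a := pt k)] at hc
      exact absurd hc (not_cross_of_share (ori_ne hi hj hk hij h1 hjk))
    by_cases h3 : j = k
    · subst h3
      rw [Sym2.eq_swap (a := pt i)] at hc
      exact absurd hc (not_cross_of_share (ori_ne hj hi hl hij.symm hkl h2))
    by_cases h4 : j = l
    · subst h4
      rw [Sym2.eq_swap (a := pt i), Sym2.eq_swap (a := pt k)] at hc
      exact absurd hc (not_cross_of_share (ori_ne hj hi hk hij.symm h3 h1))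
    constructor
    · by_contra h
      have h5 : ori (pt i) (pt j) (pt k) * ori (pt i) (pt j) (pt l) ≠ 0 :=
        mul_ne_zero (ori_ne hi hj hk hij h1 h3) (ori_ne hi hj hl hij h2 h4)
      have h6 : 0 < ori (pt i) (pt j) (pt k) * ori (pt i) (pt j) (pt l) :=
        lt_of_le_of_ne (not_lt.mp h) h5.symm
      exact not_cross_of_sep h6 hc
    · by_contra h
      have h5 : ori (pt k) (pt l) (pt i) * ori (pt k) (pt l) (pt j) ≠ 0 :=
        mul_ne_zero (ori_ne hk hl hi hkl (Ne.symm h1) (Ne.symm h2))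
          (ori_ne hk hl hj hkl (Ne.symm h3) (Ne.symm h4))
      have h6 : 0 < ori (pt k) (pt l) (pt i) * ori (pt k) (pt l) (pt j) :=
        lt_of_le_of_ne (not_lt.mp h) h5.symm
      exact not_cross_of_sep h6 hc.symm
  · rintro ⟨h1, h2⟩
    exact cross_of_ori h1 h2

lemma allowed_pt {i j : ℕ} (hi : i < 16) (hj : j < 16) (hij : i ≠ j) :
    Allowed S16 s(pt i, pt j) := by
  refine ⟨?_, ?_, ?_⟩
  · rw [Sym2.mk_isDiag_iff]
    intro h
    exact hij (pt_inj hi hj h)
  · intro x hx
    rcases Sym2.mem_iff.mp hx with rfl | rfl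
    · exact mem_S16.mpr ⟨i, hi, rfl⟩
    · exact mem_S16.mpr ⟨j, hj, rfl⟩
  · intro x hx hs
    obtain ⟨k, hk, rfl⟩ := mem_S16.mp hx
    by_cases h1 : i = k
    · subst h1; simp
    by_cases h2 : j = k
    · subst h2; simp
    exact absurd (ori_of_mem_seg _ _ _ hs) (ori_ne hi hj hk hij h1 h2)

lemma allowed_form {e : Sym2 Pt} (h : Allowed S16 e) :
    ∃ i j, i < j ∧ j < 16 ∧ e = s(pt i, pt j) := by
  induction e using Sym2.ind with
  | _ a b =>
    obtain ⟨h1, h2, -⟩ := h
    obtain ⟨i, hi, rfl⟩ := mem_S16.mp (h2 a (by simp))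
    obtain ⟨j, hj, rfl⟩ := mem_S16.mp (h2 b (by simp))
    have hij : i ≠ j := by
      rintro rfl
      exact h1 (by simp)
    rcases lt_or_gt_of_ne hij with h | h
    · exact ⟨i, j, h, hj, rfl⟩
    · exact ⟨j, i, h, hi, Sym2.eq_swap⟩

/-- coded lists passing the checks are triangulations -/
lemma tri_of_list {L : List ℕ} (h1 : chk1 L = true) (h2 : chk2 L = true) (h3 : chk3 L = true) :
    IsTriangulation S16 (TR L) := by
  unfold chk1 at h1
  unfold chk2 at h2
  unfold chk3 at h3
  simp only [List.all_eq_true, List.any_eq_true, Bool.and_eq_true, decide_eq_true_eq,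
    Bool.not_eq_true', List.mem_range, Bool.or_eq_true, List.contains_iff_mem,
    decide_eq_false_iff_not] at h1 h2 h3
  have hb : ∀ n ∈ L, n / 16 < n % 16 ∧ n / 16 < 16 ∧ n % 16 < 16 := by
    intro n hn
    have := h1 n hn
    omega
  constructor
  · constructor
    · rintro e ⟨n, hn, rfl⟩
      obtain ⟨a, b, c⟩ := hb n hn
      exact allowed_pt b c a.ne
    · rintro e ⟨n, hn, rfl⟩ f ⟨m, hm, rfl⟩ hne
      obtain ⟨a, b, c⟩ := hb n hn
      obtain ⟨a', b', c'⟩ := hb m hm
      rw [cross_iff b c b' c' a.ne a'.ne hne, h2 n hn m hm]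
      simp
  · rintro Y ⟨hY1, hY2⟩ hLY e he
    obtain ⟨i, j, hij, hj, rfl⟩ := allowed_form (hY1 e he)
    rcases h3 i (by omega) j hj with (h | h) | ⟨m, hm, hx⟩
    · exact absurd hij h
    · refine ⟨16 * i + j, h, ?_⟩
      have e1 : (16 * i + j) / 16 = i := by omega
      have e2 : (16 * i + j) % 16 = j := by omega
      rw [e1, e2]
    · exfalso
      obtain ⟨a', b', c'⟩ := hb m hm
      have hne : s(pt i, pt j) ≠ s(pt (m / 16), pt (m % 16)) := by
        intro hc
        rw [xz_iff] at hx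
        rcases Sym2.eq_iff.mp hc with ⟨e1, e2⟩ | ⟨e1, e2⟩
        · rw [← e1, ori_self] at hx; simp at hx
        · rw [← e2, ori_self'] at hx; simp at hx
      exact hY2 _ he _ (hLY ⟨m, hm, rfl⟩) hne
        ((cross_iff (by omega) hj b' c' hij.ne a'.ne hne).mpr hx)

lemma mem_TR_cd {L : List ℕ} (h1 : chk1 L = true) {i j : ℕ} (hi : i < 16) (hj : j < 16) :
    s(pt i, pt j) ∈ TR L ↔ cd i j ∈ L := by
  unfold chk1 at h1
  simp only [List.all_eq_true, Bool.and_eq_true, decide_eq_true_eq] at h1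
  constructor
  · rintro ⟨n, hn, he⟩
    have h2 := h1 n hn
    rcases Sym2.eq_iff.mp he with ⟨e1, e2⟩ | ⟨e1, e2⟩
    · have e1' := pt_inj hi (by omega) e1
      have e2' := pt_inj hj (by omega) e2
      have : cd i j = n := by
        unfold cd
        rw [if_pos (by omega)]
        omega
      rwa [this]
    · have e1' := pt_inj hi (by omega) e1
      have e2' := pt_inj hj (by omega) e2
      have : cd i j = n := by
        unfold cd
        rw [if_neg (by omega)]
        omega
      rwa [this]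
  · intro h
    refine ⟨_, h, ?_⟩
    have h2 := h1 _ h
    unfold cd at h2 ⊢
    by_cases hij : i < j
    · simp only [if_pos hij] at h2 ⊢
      have e1 : (16 * i + j) / 16 = i := by omega
      have e2 : (16 * i + j) % 16 = j := by omega
      rw [e1, e2]
    · simp only [if_neg hij] at h2 ⊢
      have e1 : (16 * j + i) / 16 = j := by omega
      have e2 : (16 * j + i) % 16 = i := by omega
      rw [e1, e2]
      exact Sym2.eq_swap

lemma ori_rot (a b c : Pt) : ori b a c = - ori a b c := by unfold ori; ring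

/-- strictly inside points are in the closed triangle -/
lemma mem_of_ins {a b c x : ℕ} (h : ins a b c x = true) :
    pt x ∈ convexHull ℝ {pt a, pt b, pt c} := by
  unfold ins at h
  simp only [Bool.or_eq_true, Bool.and_eq_true, decide_eq_true_eq] at h
  rcases h with ⟨⟨h1, h2⟩, h3⟩ | ⟨⟨h1, h2⟩, h3⟩
  · apply mem_tri
    · rw [ori_pt]; exact_mod_cast h1
    · rw [ori_pt]; exact_mod_cast h2
    · rw [ori_pt]; exact_mod_cast h3
  · have hswap : ({pt a, pt b, pt c} : Set Pt) = {pt b, pt a, pt c} := Set.insert_comm _ _ _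
    rw [hswap]
    have g1 : (oz a b x : ℝ) < 0 := by exact_mod_cast h1
    have g2 : (oz b c x : ℝ) < 0 := by exact_mod_cast h2
    have g3 : (oz c a x : ℝ) < 0 := by exact_mod_cast h3
    apply mem_tri
    · rw [ori_rot, ori_pt]; linarith
    · rw [ori_rot, ori_pt]; linarith
    · rw [ori_rot, ori_pt]; linarith

/-- coded lists passing the checks give parallel flips -/
lemma flip_of_lists {L L' : List ℕ} (h1 : chk1 L = true) (h1' : chk1 L' = true)
    (h2' : chk2 L' = true) (h3' : chk3 L' = true) (h4 : chk4 L L' = true) :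
    ParallelFlip S16 (TR L) (TR L') := by
  refine ⟨TR L \ TR L', TR L' \ TR L, Set.sdiff_subset, ?_, ?_, tri_of_list h1' h2' h3'⟩
  · rintro a b c ⟨hab, hbc, hca, hempty⟩ ⟨⟨-, hE1⟩, ⟨-, hE2⟩⟩
    have hL := h1
    unfold chk1 at hL
    simp only [List.all_eq_true, Bool.and_eq_true, decide_eq_true_eq] at hL
    have hform : ∀ e ∈ TR L, Allowed S16 e := by
      rintro e ⟨n, hn, rfl⟩
      have := hL n hn
      exact allowed_pt (by omega) (by omega) (by omega)
    have ha : a ∈ S16 := (hform _ hab).2.1 a (by simp)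
    have hb : b ∈ S16 := (hform _ hab).2.1 b (by simp)
    have hc : c ∈ S16 := (hform _ hbc).2.1 c (by simp)
    have hd := (hform _ hca).1
    obtain ⟨i, hi, rfl⟩ := mem_S16.mp ha
    obtain ⟨j, hj, rfl⟩ := mem_S16.mp hb
    obtain ⟨k, hk, rfl⟩ := mem_S16.mp hc
    have hik : i ≠ k := by
      rintro rfl
      exact hd (by simp)
    unfold chk4 at h4
    simp only [List.all_eq_true, List.any_eq_true, Bool.and_eq_true, decide_eq_true_eq,
      Bool.not_eq_true', List.mem_range, Bool.or_eq_true, List.contains_iff_mem,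
      Bool.and_eq_false_iff, decide_eq_false_iff_not] at h4
    rw [mem_TR_cd h1 hi hj] at hab
    rw [mem_TR_cd h1' hi hj] at hE1
    rw [mem_TR_cd h1 hj hk] at hbc
    rw [mem_TR_cd h1' hj hk] at hE2
    rw [Sym2.eq_swap, mem_TR_cd h1 hi hk] at hca
    have h5 := h4 j hj i hi
    rcases h5 with h5 | h5
    · simp_all
    · rcases h5 k hk with h6 | ⟨x, hx, h6⟩
      · simp_all
      · have h7 := hempty (pt x) (mem_S16.mpr ⟨x, hx, rfl⟩) (mem_of_ins h6)
        unfold ins at h6
        simp only [Bool.or_eq_true, Bool.and_eq_true, decide_eq_true_eq] at h6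
        have z1 : ∀ p q : ℕ, oz p q p = 0 := by intro p q; unfold oz; ring
        have z2 : ∀ p q : ℕ, oz p q q = 0 := by intro p q; unfold oz; ring
        rcases h7 with h7 | h7 | h7
        · have := pt_inj hx hi h7
          subst this
          rw [z1] at h6; omega
        · have := pt_inj hx hj h7
          subst this
          rw [z2] at h6; omega
        · have := pt_inj hx hk h7
          subst this
          rw [z2 j] at h6
          omega
  · ext e
    simp only [Set.mem_union, Set.mem_sdiff]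
    tauto

end Pool.Agent.Q131.PF
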