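import Mathlib
import Pool.Agent.Q131.PF.Core

set_option autoImplicit false

namespace Pool.Agent.Q131.PF

/-- codes of the common edges -/
def HH : List ℕ := (LL 0).filter (fun n => (LL 11).contains n)

/-- crosses a common edge -/
def xh (k l : ℕ) : Bool := HH.any (fun n => xz (n / 16) (n % 16) k l)

/-- both names of an unordered pair of indices -/
def same (i j k l : ℕ) : Bool := (decide (i = k) && decide (j = l)) || (decide (i = l) && decide (j = k))

/-- claim 1 -/
def c1 : Bool := (List.range 7).all fun i => (List.range 7).all fun i' => !decide (i < i') ||
  (List.range 16).all fun k => (List.range 16).all fun l =>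
    !xz 15 i' k l || xz 15 i k l || xh k l

/-- claim 1 lower -/
def c1' : Bool := (List.range 7).all fun i => (List.range 7).all fun i' => !decide (i < i') ||
  (List.range 16).all fun k => (List.range 16).all fun l =>
    !xz 15 (7 + i') k l || xz 15 (7 + i) k l || xh k l

/-- claim 2 -/
def c2 : Bool := (List.range 7).all fun a => (List.range 7).all fun b =>
  (List.range 16).all fun k => (List.range 16).all fun l =>
    !xz a (7 + b) k l || xz 15 a k l || xz 15 (7 + b) k l || xh k l ||
      (List.range a).any (fun i => same 15 i k l) ||
      (List.range b).any (fun j => same 15 (7 + j) k l)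

/-- claim 4, first half -/
def c4 : Bool := (List.range 6).all fun a => (List.range 7).all fun b =>
  (List.range 16).all fun k => (List.range 16).all fun l =>
    !xz a (7 + b) k l || xz 15 (a + 1) k l || xz 15 (7 + b) k l || xh k l ||
      (List.range (a + 1)).any (fun i => same 15 i k l) ||
      (List.range b).any (fun j => same 15 (7 + j) k l) ||
      (List.range b).any (fun j => same (a + 1) (7 + j) k l)

/-- claim 4, second half -/
def c4' : Bool := (List.range 7).all fun a => (List.range 6).all fun b =>
  (List.range 16).all fun k => (List.range 16).all fun l =>
    !xz a (7 + b) k l || xz 15 a k l || xz 15 (7 + (b + 1)) k l || xh k l ||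
      (List.range a).any (fun i => same 15 i k l) ||
      (List.range (b + 1)).any (fun j => same 15 (7 + j) k l) ||
      (List.range a).any (fun i => same i (7 + (b + 1)) k l)

/-- inner crossings -/
def c5 : Bool := (List.range 7).all fun a => (List.range 7).all fun b =>
  (List.range a).all fun i => (List.range b).all fun j => xz a (7 + j) i (7 + b)

/-- u_a l_b crosses q u_i for i < a -/
def c6 : Bool := (List.range 7).all fun a => (List.range 7).all fun b =>
  (List.range a).all fun i => xz a (7 + b) 15 i

/-- triangle with vertices a b c holds no other point -/
def emp (a b c : ℕ) : Bool := (List.range 16).all fun x =>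
  decide (x = a) || decide (x = b) || decide (x = c) ||
  decide (oz a b x * oz a b c < 0) || decide (oz b c x * oz b c a < 0) ||
  decide (oz c a x * oz c a b < 0)

/-- empty triangles -/
def c7 : Bool := (List.range 7).all fun a => (List.range 7).all fun b =>
  emp a 15 (7 + b) && emp a (7 + b) 15

def c8 : Bool := (List.range 6).all fun b => emp (7 + b) 15 (7 + (b + 1))

def c9 : Bool := (List.range 6).all fun a => (List.range 7).all fun b => emp a (7 + b) (a + 1)

def c10 : Bool := (List.range 7).all fun a => (List.range 6).all fun b =>
  emp (7 + b) a (7 + (b + 1))

/-- the common edges used -/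
def c11 : Bool := HH.contains (cd 15 6) && HH.contains (cd 15 13) &&
  ((List.range 6).all fun a => HH.contains (cd a (a + 1))) &&
  ((List.range 6).all fun b => HH.contains (cd (7 + b) (7 + (b + 1))))

set_option maxRecDepth 100000 in
lemma c1_t : c1 = true := by decide +kernel
set_option maxRecDepth 100000 in
lemma c1'_t : c1' = true := by decide +kernel
set_option maxRecDepth 100000 in
lemma c2_t : c2 = true := by decide +kernel
set_option maxRecDepth 100000 in
lemma c4_t : c4 = true := by decide +kernel
set_option maxRecDepth 100000 in
lemma c4'_t : c4' = true := by decide +kernel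
set_option maxRecDepth 100000 in
lemma c5_t : c5 = true := by decide +kernel
set_option maxRecDepth 100000 in
lemma c6_t : c6 = true := by decide +kernel
set_option maxRecDepth 100000 in
lemma c7_t : c7 = true := by decide +kernel
set_option maxRecDepth 100000 in
lemma c8_t : c8 = true := by decide +kernel
set_option maxRecDepth 100000 in
lemma c9_t : c9 = true := by decide +kernel
set_option maxRecDepth 100000 in
lemma c10_t : c10 = true := by decide +kernel
set_option maxRecDepth 100000 in
lemma c11_t : c11 = true := by decide +kernel

end Pool.Agent.Q131.PF
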