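import Mathlib
import Pool.Agent.Q131.PF.Low

set_option autoImplicit false

namespace Pool.Agent.Q131.PF

/-- the edge with indices i j is in R -/
def m (R : Set (Sym2 Pt)) (i j : ℕ) : Prop := s(pt i, pt j) ∈ R

lemma m_symm {R : Set (Sym2 Pt)} {i j : ℕ} (h : m R i j) : m R j i := by
  unfold m at *; rwa [Sym2.eq_swap]

lemma lemN {R : Set (Sym2 Pt)} (hR : IsTriangulation S16 R) {i j k l : ℕ} (hi : i < 16)
    (hj : j < 16) (hk : k < 16) (hl : l < 16) (hij : i ≠ j) (hkl : k ≠ l) (h1 : m R i j)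
    (h2 : m R k l) : xz i j k l = false := by
  by_contra h
  have h : xz i j k l = true := by simpa using h
  have hne : s(pt i, pt j) ≠ s(pt k, pt l) := by
    intro hc
    rw [xz_iff] at h
    rcases Sym2.eq_iff.mp hc with ⟨e1, e2⟩ | ⟨e1, e2⟩
    · rw [← e1, ori_self] at h; simp at h
    · rw [← e2, ori_self'] at h; simp at h
  exact hR.1.2 _ h1 _ h2 hne ((cross_iff hi hj hk hl hij hkl hne).mpr h)

lemma lemM {R : Set (Sym2 Pt)} (hR : IsTriangulation S16 R) {i j : ℕ} (hi : i < 16)
    (hj : j < 16) (hij : i ≠ j) (h : ¬ m R i j) :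
    ∃ k l, k < 16 ∧ l < 16 ∧ k ≠ l ∧ m R k l ∧ xz i j k l = true := by
  by_contra hcon
  push Not at hcon
  apply h
  have hsub : insert s(pt i, pt j) R ⊆ R := by
    apply hR.2 _ (Set.subset_insert _ _)
    have hold : ∀ e ∈ R, s(pt i, pt j) ≠ e → ¬ Cross s(pt i, pt j) e := by
      intro e he hne hc
      obtain ⟨k, l, hkl, hl, rfl⟩ := allowed_form (hR.1.1 e he)
      have := hcon k l (by omega) hl hkl.ne he
      exact this ((cross_iff hi hj (by omega) hl hij hkl.ne hne).mp hc)
    constructor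
    · intro e he
      rcases he with rfl | he
      · exact allowed_pt hi hj hij
      · exact hR.1.1 e he
    · intro e he f hf hne
      rcases he with rfl | he
      · rcases hf with rfl | hf
        · exact absurd rfl hne
        · exact hold f hf hne
      · rcases hf with rfl | hf
        · intro hc
          exact hold e he hne.symm hc.symm
        · exact hR.1.2 e he f hf hne
  exact hsub (Set.mem_insert _ _)

/-- R contains the common edges -/
def Hap (R : Set (Sym2 Pt)) : Prop := ∀ n ∈ HH, m R (n / 16) (n % 16)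

lemma HH_bd : ∀ n ∈ HH, n / 16 < 16 ∧ n % 16 < 16 ∧ n / 16 ≠ n % 16 := by
  intro n hn
  have h1 : n ∈ LL 0 := List.mem_of_mem_filter hn
  have h2 := chk1_all
  simp only [List.all_eq_true, List.mem_range] at h2
  have h3 := h2 0 (by norm_num)
  unfold chk1 at h3
  simp only [List.all_eq_true, Bool.and_eq_true, decide_eq_true_eq] at h3
  have h4 := h3 n h1
  omega

lemma xh_false {R : Set (Sym2 Pt)} (hR : IsTriangulation S16 R) (hH : Hap R) {k l : ℕ}
    (hk : k < 16) (hl : l < 16) (hkl : k ≠ l) (h : m R k l) : xh k l = false := by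
  by_contra hc
  have hc : xh k l = true := by simpa using hc
  unfold xh at hc
  simp only [List.any_eq_true] at hc
  obtain ⟨n, hn, hx⟩ := hc
  obtain ⟨a, b, c⟩ := HH_bd n hn
  have := lemN hR a b hk hl c hkl (hH n hn) h
  rw [this] at hx
  simp at hx

lemma m_of_cd {R : Set (Sym2 Pt)} (hH : Hap R) {i j : ℕ} (hi : i < 16) (hj : j < 16)
    (h : HH.contains (cd i j) = true) : m R i j := by
  have h1 : cd i j ∈ HH := by simpa using h
  have h2 := hH _ h1
  unfold cd at h2
  split_ifs at h2 with hij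
  · have e1 : (16 * i + j) / 16 = i := by omega
    have e2 : (16 * i + j) % 16 = j := by omega
    rwa [e1, e2] at h2
  · have e1 : (16 * j + i) / 16 = j := by omega
    have e2 : (16 * j + i) % 16 = i := by omega
    rw [e1, e2] at h2
    exact m_symm h2

lemma same_m {R : Set (Sym2 Pt)} {i j k l : ℕ} (h : same i j k l = true) (h2 : m R k l) :
    m R i j := by
  unfold same at h
  simp only [Bool.or_eq_true, Bool.and_eq_true, decide_eq_true_eq] at h
  rcases h with ⟨rfl, rfl⟩ | ⟨rfl, rfl⟩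
  · exact h2
  · exact m_symm h2

/-- positions of the outermost edges at the right apex -/
structure AB (R : Set (Sym2 Pt)) (a b : ℕ) : Prop where
  ha : a ≤ 6
  hb : b ≤ 6
  h1 : m R 15 a
  h2 : ∀ i < a, ¬ m R 15 i
  h3 : m R 15 (7 + b)
  h4 : ∀ j < b, ¬ m R 15 (7 + j)

lemma exists_AB {R : Set (Sym2 Pt)} (hH : Hap R) : ∃ a b, AB R a b := by
  classical
  have h := c11_t
  unfold c11 at h
  simp only [Bool.and_eq_true, List.all_eq_true, List.mem_range] at h
  obtain ⟨⟨⟨h1, h2⟩, -⟩, -⟩ := h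
  have g1 : m R 15 6 := m_of_cd hH (by norm_num) (by norm_num) h1
  have g2 : m R 15 13 := m_of_cd hH (by norm_num) (by norm_num) h2
  have e1 : ∃ i, m R 15 i := ⟨6, g1⟩
  have e2 : ∃ j, m R 15 (7 + j) := ⟨6, g2⟩
  refine ⟨Nat.find e1, Nat.find e2, Nat.find_min' e1 g1, Nat.find_min' e2 g2, Nat.find_spec e1,
    fun i hi => Nat.find_min e1 hi, Nat.find_spec e2, fun j hj => Nat.find_min e2 hj⟩

section tri

variable {R : Set (Sym2 Pt)} (hR : IsTriangulation S16 R) (hH : Hap R)
include hR hH

lemma claim1' {i i' : ℕ} (h : i < i') (h' : i' ≤ 6) (hm : m R 15 (7 + i)) :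
    m R 15 (7 + i') := by
  by_contra hcon
  obtain ⟨k, l, hk, hl, hkl, hmk, hx⟩ := lemM hR (by norm_num) (by omega) (by omega) hcon
  have c := c1'_t
  unfold c1' at c
  simp only [List.all_eq_true, List.mem_range, Bool.or_eq_true, Bool.not_eq_true',
    decide_eq_false_iff_not] at c
  rcases c i (by omega) i' (by omega) with c | c
  · exact c h
  · rcases c k hk l hl with (c | c) | c
    · rw [c] at hx; simp at hx
    · rw [lemN hR (by norm_num) (by omega) hk hl (by omega) hkl hm hmk] at c; simp at c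
    · rw [xh_false hR hH hk hl hkl hmk] at c; simp at c

lemma claim2 {a b : ℕ} (h : AB R a b) : m R a (7 + b) := by
  obtain ⟨ha, hb, h1, h2, h3, h4⟩ := h
  by_contra hcon
  obtain ⟨k, l, hk, hl, hkl, hmk, hx⟩ := lemM hR (by omega) (by omega) (by omega) hcon
  have c := c2_t
  unfold c2 at c
  simp only [List.all_eq_true, List.any_eq_true, List.mem_range, Bool.or_eq_true,
    Bool.not_eq_true'] at c
  rcases c a (by omega) b (by omega) k hk l hl with ((((c | c) | c) | c) | ⟨i, hi, c⟩) | ⟨j, hj, c⟩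
  · rw [c] at hx; simp at hx
  · rw [lemN hR (by norm_num) (by omega) hk hl (by omega) hkl h1 hmk] at c; simp at c
  · rw [lemN hR (by norm_num) (by omega) hk hl (by omega) hkl h3 hmk] at c; simp at c
  · rw [xh_false hR hH hk hl hkl hmk] at c; simp at c
  · exact h2 i hi (same_m c hmk)
  · exact h4 j hj (same_m c hmk)

lemma claim4a {a b : ℕ} (h : AB R (a + 1) b) (hcon : ¬ m R a (7 + b)) :
    ∃ j < b, m R (a + 1) (7 + j) := by
  obtain ⟨ha, hb, h1, h2, h3, h4⟩ := h
  obtain ⟨k, l, hk, hl, hkl, hmk, hx⟩ := lemM hR (by omega) (by omega) (by omega) hcon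
  have c := c4_t
  unfold c4 at c
  simp only [List.all_eq_true, List.any_eq_true, List.mem_range, Bool.or_eq_true,
    Bool.not_eq_true'] at c
  rcases c a (by omega) b (by omega) k hk l hl with
    (((((c | c) | c) | c) | ⟨i, hi, c⟩) | ⟨j, hj, c⟩) | ⟨j, hj, c⟩
  · rw [c] at hx; simp at hx
  · rw [lemN hR (by norm_num) (by omega) hk hl (by omega) hkl h1 hmk] at c; simp at c
  · rw [lemN hR (by norm_num) (by omega) hk hl (by omega) hkl h3 hmk] at c; simp at c
  · rw [xh_false hR hH hk hl hkl hmk] at c; simp at c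
  · exact absurd (same_m c hmk) (h2 i hi)
  · exact absurd (same_m c hmk) (h4 j hj)
  · exact ⟨j, hj, same_m c hmk⟩

lemma claim4b {a b : ℕ} (h : AB R a (b + 1)) (hcon : ¬ m R a (7 + b)) :
    ∃ i < a, m R i (7 + (b + 1)) := by
  obtain ⟨ha, hb, h1, h2, h3, h4⟩ := h
  obtain ⟨k, l, hk, hl, hkl, hmk, hx⟩ := lemM hR (by omega) (by omega) (by omega) hcon
  have c := c4'_t
  unfold c4' at c
  simp only [List.all_eq_true, List.any_eq_true, List.mem_range, Bool.or_eq_true,
    Bool.not_eq_true'] at c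
  rcases c a (by omega) b (by omega) k hk l hl with
    (((((c | c) | c) | c) | ⟨i, hi, c⟩) | ⟨j, hj, c⟩) | ⟨j, hj, c⟩
  · rw [c] at hx; simp at hx
  · rw [lemN hR (by norm_num) (by omega) hk hl (by omega) hkl h1 hmk] at c; simp at c
  · rw [lemN hR (by norm_num) (by omega) hk hl (by omega) hkl h3 hmk] at c; simp at c
  · rw [xh_false hR hH hk hl hkl hmk] at c; simp at c
  · exact absurd (same_m c hmk) (h2 i hi)
  · exact absurd (same_m c hmk) (h4 j hj)
  · exact ⟨j, hj, same_m c hmk⟩

/-- the triangle to the left of the edge u_a l_b -/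
lemma claim4 {a b : ℕ} (h : AB R a b) (hne : 0 < a) :
    m R (a - 1) (7 + b) ∨ (0 < b ∧ m R a (7 + (b - 1))) := by
  by_contra hcon
  push Not at hcon
  obtain ⟨n1, n2⟩ := hcon
  obtain ⟨a, rfl⟩ : ∃ a', a = a' + 1 := ⟨a - 1, by omega⟩
  simp only [Nat.add_sub_cancel] at n1
  obtain ⟨j, hj, hmj⟩ := claim4a hR hH h n1
  obtain ⟨b, rfl⟩ : ∃ b', b = b' + 1 := ⟨b - 1, by omega⟩
  have n2 := n2 (by omega)
  simp only [Nat.add_sub_cancel] at n2
  obtain ⟨i, hi, hmi⟩ := claim4b hR hH h n2
  have c := c5_t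
  unfold c5 at c
  simp only [List.all_eq_true, List.mem_range] at c
  have h1 := h.ha
  have h2 := h.hb
  have c := c (a + 1) (by omega) (b + 1) (by omega) i hi j hj
  rw [lemN hR (by omega) (by omega) (by omega) (by omega) (by omega) (by omega) hmj hmi] at c
  simp at c

end tri

lemma tri_of_emp {R : Set (Sym2 Pt)} {a b c : ℕ} (h : emp a b c = true)
    (h1 : m R a b) (h2 : m R b c) (h3 : m R c a) : IsTriangle S16 R (pt a) (pt b) (pt c) := by
  refine ⟨h1, h2, h3, ?_⟩
  intro x hx hmem
  obtain ⟨k, hk, rfl⟩ := mem_S16.mp hx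
  unfold emp at h
  simp only [List.all_eq_true, List.mem_range, Bool.or_eq_true, decide_eq_true_eq] at h
  rcases h k hk with ((((h | h) | h) | h) | h) | h
  · subst h; exact Or.inl rfl
  · subst h; exact Or.inr (Or.inl rfl)
  · subst h; exact Or.inr (Or.inr rfl)
  · exfalso
    refine not_mem_tri (a := pt a) (b := pt b) (c := pt c) ?_ hmem
    rw [ori_pt, ori_pt]; exact_mod_cast h
  · exfalso
    have e : ({pt a, pt b, pt c} : Set Pt) = {pt b, pt c, pt a} := by
      ext y; simp only [Set.mem_insert_iff, Set.mem_singleton_iff]; tauto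
    rw [e] at hmem
    refine not_mem_tri (a := pt b) (b := pt c) (c := pt a) ?_ hmem
    rw [ori_pt, ori_pt]; exact_mod_cast h
  · exfalso
    have e : ({pt a, pt b, pt c} : Set Pt) = {pt c, pt a, pt b} := by
      ext y; simp only [Set.mem_insert_iff, Set.mem_singleton_iff]; tauto
    rw [e] at hmem
    refine not_mem_tri (a := pt c) (b := pt a) (c := pt b) ?_ hmem
    rw [ori_pt, ori_pt]; exact_mod_cast h

lemma cross6 {R' : Set (Sym2 Pt)} (hR' : IsTriangulation S16 R') {a b i : ℕ} (ha : a ≤ 6)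
    (hb : b ≤ 6) (hi : i < a) (h : m R' 15 i) : ¬ m R' a (7 + b) := by
  intro h'
  have c := c6_t
  unfold c6 at c
  simp only [List.all_eq_true, List.mem_range] at c
  have c := c a (by omega) b (by omega) i hi
  rw [lemN hR' (by omega) (by omega) (by norm_num) (by omega) (by omega) (by omega) h' h] at c
  simp at c

lemma step_main {R R' : Set (Sym2 Pt)} (hR : IsTriangulation S16 R) (hH : Hap R)
    (hR' : IsTriangulation S16 R') (hH' : Hap R') (hf : ParallelFlip S16 R R') {a b a' b' : ℕ}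
    (h : AB R a b) (h' : AB R' a' b') : a + b' ≤ a' + b + 1 := by
  obtain ⟨E, E', hE, hE2, hE3, -⟩ := hf
  have hin : ∀ i j, m R i j → ¬ m R' i j → s(pt i, pt j) ∈ E := by
    intro i j h1 h2
    by_contra h3
    apply h2
    unfold m
    rw [hE3]
    exact Or.inl ⟨h1, h3⟩
  have hch := c11_t
  unfold c11 at hch
  simp only [Bool.and_eq_true, List.all_eq_true, List.mem_range] at hch
  obtain ⟨⟨-, hch1⟩, hch2⟩ := hch
  have ha := h.ha
  have hb := h.hb
  have ha' := h'.ha
  have hb' := h'.hb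
  have hab := claim2 hR hH h
  -- b' ≤ b + 1
  have hA : b' ≤ b + 1 := by
    by_contra hcon
    have g1 : s(pt 15, pt (7 + b)) ∈ E := hin _ _ h.h3 (h'.h4 b (by omega))
    have g3 : m R 15 (7 + (b + 1)) := claim1' hR hH (by omega) (by omega) h.h3
    have g2 : s(pt 15, pt (7 + (b + 1))) ∈ E := hin _ _ g3 (h'.h4 (b + 1) (by omega))
    have c := c8_t
    unfold c8 at c
    simp only [List.all_eq_true, List.mem_range] at c
    have g4 : m R (7 + b) (7 + (b + 1)) :=
      m_of_cd hH (by omega) (by omega) (hch2 b (by omega))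
    have ht := tri_of_emp (c b (by omega)) (m_symm h.h3) g3 (m_symm g4)
    exact hE2 _ _ _ ht ⟨by rwa [Sym2.eq_swap], g2⟩
  -- a ≤ a' + 1
  have hB : a ≤ a' + 1 := by
    by_contra hcon
    have g1 : s(pt a, pt (7 + b)) ∈ E :=
      hin _ _ hab (cross6 hR' ha hb (by omega) h'.h1)
    rcases claim4 hR hH h (by omega) with g2 | ⟨hb0, g2⟩
    · have g3 : s(pt (a - 1), pt (7 + b)) ∈ E :=
        hin _ _ g2 (cross6 hR' (by omega) hb (by omega) h'.h1)
      have c := c9_t
      unfold c9 at c
      simp only [List.all_eq_true, List.mem_range] at c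
      have c := c (a - 1) (by omega) b (by omega)
      have e : a - 1 + 1 = a := by omega
      have g4 : m R (a - 1) (a - 1 + 1) :=
        m_of_cd hH (by omega) (by omega) (hch1 (a - 1) (by omega))
      rw [e] at c g4
      have ht := tri_of_emp c g2 (m_symm hab) (m_symm g4)
      exact hE2 _ _ _ ht ⟨g3, by rwa [Sym2.eq_swap]⟩
    · have g3 : s(pt a, pt (7 + (b - 1))) ∈ E :=
        hin _ _ g2 (cross6 hR' ha (by omega) (by omega) h'.h1)
      have c := c10_t
      unfold c10 at c
      simp only [List.all_eq_true, List.mem_range] at c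
      have c := c a (by omega) (b - 1) (by omega)
      have e : b - 1 + 1 = b := by omega
      have g4 : m R (7 + (b - 1)) (7 + (b - 1 + 1)) :=
        m_of_cd hH (by omega) (by omega) (hch2 (b - 1) (by omega))
      rw [e] at c g4
      have ht := tri_of_emp c (m_symm g2) hab (m_symm g4)
      exact hE2 _ _ _ ht ⟨by rwa [Sym2.eq_swap], g1⟩
  -- not both
  by_contra hcon
  have h1 : a' < a := by omega
  have h2 : b < b' := by omega
  have g1 : s(pt a, pt (7 + b)) ∈ E := hin _ _ hab (cross6 hR' ha hb h1 h'.h1)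
  have g2 : s(pt 15, pt (7 + b)) ∈ E := hin _ _ h.h3 (h'.h4 b h2)
  have c := c7_t
  unfold c7 at c
  simp only [List.all_eq_true, List.mem_range, Bool.and_eq_true] at c
  have ht := tri_of_emp (c a (by omega) b (by omega)).2 hab (m_symm h.h3) h.h1
  exact hE2 _ _ _ ht ⟨g1, by rwa [Sym2.eq_swap]⟩

lemma AB_unique {R : Set (Sym2 Pt)} {a b a' b' : ℕ} (h : AB R a b) (h' : AB R a' b') :
    a = a' ∧ b = b' := by
  constructor
  · rcases lt_trichotomy a a' with h1 | h1 | h1
    · exact absurd h.h1 (h'.h2 a h1)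
    · exact h1
    · exact absurd h'.h1 (h.h2 a' h1)
  · rcases lt_trichotomy b b' with h1 | h1 | h1
    · exact absurd h.h3 (h'.h4 b h1)
    · exact h1
    · exact absurd h'.h3 (h.h4 b' h1)

/-- the start -/
def T0 : Set (Sym2 Pt) := TR (LL 0)
/-- the end -/
def T1 : Set (Sym2 Pt) := TR (LL 11)

lemma chk1_LL {n : ℕ} (h : n < 12) : chk1 (LL n) = true := by
  have h2 := chk1_all
  simp only [List.all_eq_true, List.mem_range] at h2
  exact h2 n h
lemma chk2_LL {n : ℕ} (h : n < 12) : chk2 (LL n) = true := by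
  have h2 := chk2_all
  simp only [List.all_eq_true, List.mem_range] at h2
  exact h2 n h
lemma chk3_LL {n : ℕ} (h : n < 12) : chk3 (LL n) = true := by
  have h2 := chk3_all
  simp only [List.all_eq_true, List.mem_range] at h2
  exact h2 n h
lemma chk4_LL {n : ℕ} (h : n < 11) : chk4 (LL n) (LL (n + 1)) = true := by
  have h2 := chk4_all
  simp only [List.all_eq_true, List.mem_range] at h2
  exact h2 n h

lemma T0_tri : IsTriangulation S16 T0 :=
  tri_of_list (chk1_LL (by norm_num)) (chk2_LL (by norm_num)) (chk3_LL (by norm_num))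

lemma T1_tri : IsTriangulation S16 T1 :=
  tri_of_list (chk1_LL (by norm_num)) (chk2_LL (by norm_num)) (chk3_LL (by norm_num))

/-- a path of length eleven -/
lemma short_path : IsPath S16 T0 T1 11 (fun n => TR (LL n)) := by
  refine ⟨rfl, rfl, ?_⟩
  intro i hi
  exact flip_of_lists (chk1_LL (by omega)) (chk1_LL (by omega)) (chk2_LL (by omega))
    (chk3_LL (by omega)) (chk4_LL hi)

lemma hap_of_common {R : Set (Sym2 Pt)} (h : T0 ∩ T1 ⊆ R) : Hap R := by
  intro n hn
  apply h
  have h1 : n ∈ LL 0 := List.mem_of_mem_filter hn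
  have h2 : n ∈ LL 11 := by
    have := (List.mem_filter.mp hn).2
    simpa using this
  exact ⟨⟨n, h1, rfl⟩, ⟨n, h2, rfl⟩⟩

lemma AB_T0 : AB T0 6 0 := by
  have hc := chk1_LL (n := 0) (by norm_num)
  refine ⟨le_rfl, by norm_num, ?_, ?_, ?_, ?_⟩
  · exact (mem_TR_cd hc (by norm_num) (by norm_num)).mpr (by decide)
  · intro i hi h
    have := (mem_TR_cd hc (by norm_num) (by omega)).mp h
    interval_cases i <;> revert this <;> decide
  · exact (mem_TR_cd hc (by norm_num) (by norm_num)).mpr (by decide)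
  · intro j hj; omega

lemma AB_T1 : AB T1 0 6 := by
  have hc := chk1_LL (n := 11) (by norm_num)
  refine ⟨by norm_num, le_rfl, ?_, ?_, ?_, ?_⟩
  · exact (mem_TR_cd hc (by norm_num) (by norm_num)).mpr (by decide)
  · intro j hj; omega
  · exact (mem_TR_cd hc (by norm_num) (by norm_num)).mpr (by decide)
  · intro i hi h
    have := (mem_TR_cd hc (by norm_num) (by omega)).mp h
    interval_cases i <;> revert this <;> decide

/-- every path that keeps the common edges has length at least twelve -/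
lemma long_path {ℓ : ℕ} {γ : ℕ → Set (Sym2 Pt)} (hp : IsPath S16 T0 T1 ℓ γ)
    (hk : ∀ i, 0 < i → i < ℓ → T0 ∩ T1 ⊆ γ i) : 12 ≤ ℓ := by
  obtain ⟨h0, hl, hs⟩ := hp
  have htri : ∀ i ≤ ℓ, IsTriangulation S16 (γ i) := by
    intro i hi
    rcases Nat.eq_zero_or_pos i with h | h
    · subst h; rw [h0]; exact T0_tri
    · obtain ⟨E, E', -, -, -, h5⟩ := hs (i - 1) (by omega)
      have : i - 1 + 1 = i := by omega
      rwa [this] at h5
  have hcm : ∀ i ≤ ℓ, Hap (γ i) := by
    intro i hi
    apply hap_of_common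
    rcases Nat.eq_zero_or_pos i with h | h
    · subst h; rw [h0]; exact Set.inter_subset_left
    · rcases Nat.lt_or_eq_of_le hi with h2 | h2
      · exact hk i h h2
      · subst h2; rw [hl]; exact Set.inter_subset_right
  have key : ∀ i ≤ ℓ, ∃ a b, AB (γ i) a b ∧ 6 + b ≤ a + i := by
    intro i
    induction i with
    | zero =>
      intro _
      exact ⟨6, 0, by rw [h0]; exact AB_T0, by norm_num⟩
    | succ i ih =>
      intro hi
      obtain ⟨a, b, hab, hle⟩ := ih (by omega)
      obtain ⟨a', b', hab'⟩ := exists_AB (hcm (i + 1) hi)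
      refine ⟨a', b', hab', ?_⟩
      have := step_main (htri i (by omega)) (hcm i (by omega)) (htri (i + 1) hi)
        (hcm (i + 1) hi) (hs i (by omega)) hab hab'
      omega
  obtain ⟨a, b, hab, hle⟩ := key ℓ le_rfl
  rw [hl] at hab
  obtain ⟨rfl, rfl⟩ := AB_unique hab AB_T1
  omega

end Pool.Agent.Q131.PF
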